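import Pool.Agent.H76K.K
import Pool.Agent.H76K.CM19

/-!
# Weakly global points of level one for the line minus a divisor with a component over a CM field

`f ∈ ℤ[X]` monic, `𝒟 = ∞ ∪ V(f) ⊂ ℙ¹_ℤ`, `𝒳 = ℙ¹_ℤ ∖ 𝒟` (kind (i) of the problem when `f` is squarefree
of degree at least two).  Then `𝒳(ℤ) = {z ∈ ℤ : f(z) ∈ ℤ^×}`, `𝒳(ℤ_p) = {z ∈ ℤ_p : f(z) ∈ ℤ_p^×}`, and
`𝒳(ℤ_p)_1` is the set `Level1` of the `z ∈ 𝒳(ℤ_p)` such that a power of `z - X` is in the closure of
`(ℤ[X]/(f))^×` in `(ℤ_p[X]/(f))^×` (Kummer theory; see the starting file `LevelOneForTheLine`, whose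
definitions are used here).  As the sets decrease with the level, `𝒳(ℤ_p)_1 = 𝒳(ℤ)` is question Q1 with
`N = 1`.  `K` is a CM field, `θ ↦ θ̄` and `P ↦ P̄` its complex conjugation on `𝓞_K` and `𝓞_K[X]`.

Only ONE component is needed here (the starting file needs a section or an imaginary quadratic component,
the hand-in `TwoComponents` needs two finite components).

Results.
* All complex conjugates `w` of a point of `𝒳(ℤ_p)_1` (all `p`) are CM torsion points of `f`: `g(w)` is a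
  root of unity for all monic `g ∣ f` in `ℤ[X]`, and `P(w)^N = P̄(w)^N` for some `N ≥ 1`, for every monic
  divisor `P ∈ 𝓞_K[X]` of `f`, every `K` and every embedding `K → ℂ`.  If all CM torsion points are integers
  then `𝒳(ℤ_p)_1 = 𝒳(ℤ)` for all `p`.
* If `f` has a monic divisor `P ∈ 𝓞_K[X]` of positive degree which is coprime to `P̄`, `P ∣ g ∣ f`,
  `g ∈ ℤ[X]` monic, `D = 2 deg g deg P`: there are at most `D` CM torsion points and at most `D` points in
  `𝒳(ℤ_p)_1`, for every `p`; `𝒳(ℤ_p)_1 = 𝒳(ℤ)` for infinitely many `p` if every real number at which all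
  monic divisors of `f` are `± 1` is an integer; for every `p ≡ 3 mod 4`, `p ≢ 1 mod q` for the odd primes
  `q ≤ D + 1`, all monic divisors of `f` are `± 1` on `𝒳(ℤ_p)_1`.
* This holds with `D = 2 [L:ℚ][L:K]` if `f` has a root `θ` such that `L = ℚ(θ)` contains `K`.
* If `U - θ ∣ f`, `θ ∈ 𝓞_K`, `θ̄ ≠ θ`, `U ∈ ℤ[X]` monic, then for every `p` and `z ∈ 𝒳(ℤ_p)_1` the number `U(z)`
  is totally real with `q(U(z)) = ± 1` for all `q(U) ∣ f`.  For `U = X`: if `f` has the root `θ` then all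
  points are totally real and all monic divisors of `f` are `± 1` there.
* If `f` is divisible by an irreducible `g` whose field `ℚ[X]/(g)` is a CM field (`CMPoly`), then moreover
  `g(z) = 1`, so there are at most `deg g` points for every `p`; `𝒳(ℤ_p)_1 = 𝒳(ℤ)` for every `p` if all totally
  real algebraic numbers `w` with `g(w) = 1` and `q(w) = ± 1` for all monic `q ∣ f` are integers; and
  `𝒳(ℤ_p)_1 = 𝒳(ℤ) ⊂ {a - 1, a, a + 1}` for every `p` if the real parts of all roots of `g` are in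
  `[a - 1, a + 1]`, `a ∈ ℤ`.
* `𝒳(ℤ_p)_1 = 𝒳(ℤ)` for EVERY `p` if `f` is divisible by `Φ_m(X - a)`, `m ≥ 3`, `a ∈ ℤ`, or by `h(X² + bX)`,
  `h ≠ 1` monic with all roots real and smaller than `- b² / 4`; if `Φ_m(U)` divides `f`, `U` monic, then
  `U(z) ∈ {0, 1, -1}` for `z ∈ 𝒳(ℤ_p)_1`.

The parts on `CMPoly` and `h(X² + bX)` are a theorem of helper19 of our team (`Pool.Agent.H19CM`, formerly the
hand-in `ComplexMultiplication`, which this one replaces).

Idea: the norm of `ℤ[X]/(f) ⊗ 𝓞_K` to `𝓞_K` given by `P` sends units to units `ε`, and `ε/ε̄` is a root of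
unity; so `P(z)/P̄(z)` is a root of unity, in an algebraic closure of `ℚ_p` and then in `ℂ`.  A complex
conjugate `w` satisfies `P(w) P̄(w̄) = P̄(w) P(w̄)` and `g(w) g(w̄) = 1`; the resultant is not zero.  For
`P = U - θ` the first equation says that `U(w)` is real.
-/

set_option autoImplicit false

open Polynomial NumberField
open scoped IntermediateField

namespace Pool.Agent.Results.MP_fd87b4_nt.CMComponent

/-- `𝒳(ℤ)` -/
def IntPts (f : ℤ[X]) : Set ℤ := {z | IsUnit (f.eval z)}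

/-- `𝒳(ℤ_p)` -/
def PadicPts (p : ℕ) [Fact p.Prime] (f : ℤ[X]) : Set ℤ_[p] :=
  {z | IsUnit ((f.map (Int.castRingHom ℤ_[p])).eval z)}

/-- `u` is a unit of `ℤ[X]/(f)` -/
def UnitMod (f u : ℤ[X]) : Prop := ∃ v a : ℤ[X], u * v = 1 + f * a

/-- the class of `P` is in the closure of the image of `(ℤ[X]/(f))^×` in `ℤ_p[X]/(f)` -/
def InClosure (p : ℕ) [Fact p.Prime] (f : ℤ[X]) (P : ℤ_[p][X]) : Prop :=
  ∀ k : ℕ, ∃ u : ℤ[X], UnitMod f u ∧ ∃ b c : ℤ_[p][X],
    P = u.map (Int.castRingHom ℤ_[p]) + f.map (Int.castRingHom ℤ_[p]) * b +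
      C ((p : ℤ_[p]) ^ k) * c

/-- `𝒳(ℤ_p)_1` -/
def Level1 (p : ℕ) [Fact p.Prime] (f : ℤ[X]) : Set ℤ_[p] :=
  {z | z ∈ PadicPts p f ∧ ∃ n : ℕ, 0 < n ∧ InClosure p f ((C z - X) ^ n)}

/-- `𝒳(ℤ_p)_1 = 𝒳(ℤ)` -/
def Settled (p : ℕ) [Fact p.Prime] (f : ℤ[X]) : Prop :=
  Level1 p f = (fun z : ℤ => (z : ℤ_[p])) '' IntPts f

/-- `z` and `w` are roots of the same polynomials with integral coefficients -/
def Conjugate {A B : Type} [CommRing A] [CommRing B] (z : A) (w : B) : Prop :=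
  ∀ Q : ℤ[X], aeval z Q = 0 ↔ aeval w Q = 0

/-- the complex conjugation of the ring of integers of a CM field -/
noncomputable def bar (K : Type) [Field K] [NumberField K] [IsCMField K] : 𝓞 K →+* 𝓞 K :=
  ((RingOfIntegers.mapRingEquiv (IsCMField.complexConj K).toRingEquiv : 𝓞 K ≃+* 𝓞 K) :
    𝓞 K →+* 𝓞 K)

/-- the value at `w` of a polynomial over `𝓞 K`, `K` embedded by `τ` -/
noncomputable def value {K : Type} [Field K] (τ : K →+* ℂ) (P : (𝓞 K)[X]) (w : ℂ) : ℂ :=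
  P.eval₂ (τ.comp (algebraMap (𝓞 K) K)) w

/-- the CM torsion points of `f` -/
def CMTorsionPts (f : ℤ[X]) : Set ℂ :=
  {w | (∀ g : ℤ[X], g.Monic → g ∣ f → ∃ n : ℕ, 0 < n ∧ aeval w g ^ n = 1) ∧
    ∀ (K : Type) [Field K] [NumberField K] [IsCMField K] (τ : K →+* ℂ) (P : (𝓞 K)[X]),
      P.Monic → P ∣ f.map (algebraMap ℤ (𝓞 K)) →
        ∃ N : ℕ, 0 < N ∧ value τ P w ^ N = value τ (P.map (bar K)) w ^ N}

/-- all monic divisors of `f` have the value `1` or `-1` at `x` -/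
def PM {A : Type} [CommRing A] (f : ℤ[X]) (x : A) : Prop :=
  ∀ q : ℤ[X], q.Monic → q ∣ f → aeval x q = 1 ∨ aeval x q = -1

/-- `x` is totally real: all its complex conjugates are real -/
def TotReal {A : Type} [CommRing A] (x : A) : Prop := ∀ y : ℂ, Conjugate x y → y.im = 0

/-- `g` is monic, irreducible, without real roots, and the complex conjugate of each root `α` is
`c(α) / m`, with an integral polynomial `c` and an integer `m ≠ 0` which do not depend on `α` -/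
def CMPoly (g : ℤ[X]) : Prop :=
  g.Monic ∧ Irreducible g ∧ ∃ (c : ℤ[X]) (m : ℤ), m ≠ 0 ∧
    ∀ α : ℂ, aeval α g = 0 → α.im ≠ 0 ∧ aeval α c = m * (starRingEnd ℂ) α

/-- `p ≡ 3 mod 4` and `p ≢ 1 mod q` for all odd primes `q ≤ D + 1` -/
def Good (D p : ℕ) : Prop :=
  p % 4 = 3 ∧ ∀ q : ℕ, q.Prime → q ≠ 2 → q ≤ D + 1 → ¬ q ∣ p - 1

/-- few points of level one -/
def Few (f : ℤ[X]) (D : ℕ) : Prop :=
  ((CMTorsionPts f).Finite ∧ (CMTorsionPts f).ncard ≤ D) ∧
  (∀ (p : ℕ) [Fact p.Prime], (Level1 p f).Finite ∧ (Level1 p f).ncard ≤ D) ∧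
  ((∀ x : ℝ, PM f x → ∃ m : ℤ, x = m) →
    ∀ B : ℕ, ∃ (p : ℕ) (_ : Fact p.Prime), B < p ∧ Settled p f) ∧
  (∀ (p : ℕ) [Fact p.Prime], Good D p → ∀ z ∈ Level1 p f, PM f z)

section proof

open Pool.Agent.N874.WG Pool.Agent.H76K

variable {p : ℕ} [Fact p.Prime]

theorem mem_level (f : ℤ[X]) (x : ℤ) (hx : x ∈ IntPts f) : (x : ℤ_[p]) ∈ Level1 p f := by
  have hx' : f.eval x = 1 ∨ f.eval x = -1 := Int.isUnit_iff.1 hx
  refine ⟨?_, 1, one_pos, approx_int f x hx'⟩
  change IsUnit ((toP p f).eval (x : ℤ_[p]))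
  rw [toP_eval_int]
  rcases hx' with h | h <;> rw [h] <;> simp

theorem level_all {f : ℤ[X]} (hf : f.Monic) (hd : 0 < f.natDegree) {z : ℤ_[p]}
    (hz : z ∈ Level1 p f) : AllTor f z := by
  obtain ⟨-, n, hn, h⟩ := hz
  exact allTor hf hd hn h

theorem settled_of {f : ℤ[X]} (hf : f.Monic)
    (h : ∀ z : ℤ_[p], z ∈ Level1 p f → ∃ x : ℤ, z = x) : Settled p f := by
  refine Set.Subset.antisymm ?_ ?_
  · intro z hz
    obtain ⟨x, rfl⟩ := h z hz
    obtain ⟨-, n, hn, hz⟩ := hz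
    have h1 := f_pow hf hz
    rw [toP_eval_int] at h1
    exact ⟨x, Int.isUnit_iff.2 (int_pm (by omega : 0 < 2 * n) h1), rfl⟩
  · rintro z ⟨x, hx, rfl⟩
    exact mem_level f x hx

theorem set_eq (f : ℤ[X]) : CMTorsionPts f = {w : ℂ | IsTor f w ∧ CMTor f w} := rfl

theorem few_of {f : ℤ[X]} (hf : f.Monic) (hd : 0 < f.natDegree) {D : ℕ}
    (h : (CMTorsionPts f).Finite ∧ (CMTorsionPts f).ncard ≤ D) : Few f D := by
  refine ⟨h, ?_, ?_, ?_⟩
  · intro p _
    obtain ⟨h1, h2⟩ := card_le (s := Level1 p f) h.1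
      (fun z hz => (level_all hf hd hz).1.coe.integral hf hd)
      (fun z hz w hw => ⟨hw.isTor (level_all hf hd hz).1, (level_all hf hd hz).2 w hw⟩)
    exact ⟨h1, h2.trans h.2⟩
  · intro hreal B
    obtain ⟨p, ip, hpB, hp⟩ := cm_exists_prime hf hd h.1 hreal B
    exact ⟨p, ip, hpB, settled_of hf fun z hz => hp z (level_all hf hd hz)⟩
  · intro p _ hgood z hz q hq hqf
    exact (level_all hf hd hz).pm hf hd h.1 h.2 hgood.1 hgood.2 hq hqf

theorem good_inf (d N : ℕ) : ∃ p, N < p ∧ p.Prime ∧ Good d p := by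
  have hM : 4 * (d + 1).factorial ≠ 0 := by positivity
  have : NeZero (4 * (d + 1).factorial) := ⟨hM⟩
  obtain ⟨p, h1, h2, h3⟩ := Nat.forall_exists_prime_gt_and_eq_mod
    (q := 4 * (d + 1).factorial) (a := -1) isUnit_one.neg N
  refine ⟨p, h1, h2, ?_⟩
  have h4 : 4 * (d + 1).factorial ∣ p + 1 := by
    rw [← ZMod.natCast_eq_zero_iff]
    push_cast
    rw [h3]
    ring
  constructor
  · have := (Dvd.intro _ rfl : 4 ∣ 4 * (d + 1).factorial).trans h4
    omega
  · intro q hq hq2 hqd hqp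
    have h5 : q ∣ p + 1 := (((hq.dvd_factorial).2 hqd).trans (Dvd.intro_left _ rfl)).trans h4
    have h6 : q ∣ 2 := by
      have := (Nat.dvd_sub h5 hqp)
      have h7 := h2.one_lt
      have h8 : p + 1 - (p - 1) = 2 := by omega
      rwa [h8] at this
    exact hq2 ((Nat.prime_dvd_prime_iff_eq hq Nat.prime_two).1 h6)

end proof

open Pool.Agent.N874.WG Pool.Agent.H76K in
theorem result :
    (∀ f : ℤ[X], f.Monic → 0 < f.natDegree →
      -- points of level one and CM torsion points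
      (∀ (p : ℕ) [Fact p.Prime], ∀ z ∈ Level1 p f,
        (∃ w : ℂ, Conjugate z w) ∧ ∀ w : ℂ, Conjugate z w → w ∈ CMTorsionPts f) ∧
      ((∀ w ∈ CMTorsionPts f, ∃ m : ℤ, w = m) → ∀ (p : ℕ) [Fact p.Prime], Settled p f) ∧
      -- a divisor over a CM field which is coprime to its conjugate
      (∀ (K : Type) [Field K] [NumberField K] [IsCMField K] (g : ℤ[X]) (P : (𝓞 K)[X]),
        g.Monic → g ∣ f → P.Monic → 0 < P.natDegree → P ∣ g.map (algebraMap ℤ (𝓞 K)) →
        IsCoprime (P.map (algebraMap (𝓞 K) K)) ((P.map (bar K)).map (algebraMap (𝓞 K) K)) →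
          Few f (2 * (g.natDegree * P.natDegree))) ∧
      -- a root whose field contains a CM field
      (∀ (K L : Type) [Field K] [NumberField K] [IsCMField K] [Field L] [NumberField L]
        [Algebra K L] (θ : 𝓞 L), ℚ⟮(θ : L)⟯ = ⊤ → aeval θ f = 0 →
          Few f (2 * (Module.finrank ℚ L * Module.finrank K L))) ∧
      -- a composite component
      (∀ (K : Type) [Field K] [NumberField K] [IsCMField K] (θ : 𝓞 K) (U : ℤ[X]),
        bar K θ ≠ θ → U.Monic → 0 < U.natDegree →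
        (U.map (algebraMap ℤ (𝓞 K)) - C θ) ∣ f.map (algebraMap ℤ (𝓞 K)) →
          ∀ (p : ℕ) [Fact p.Prime], ∀ z ∈ Level1 p f, TotReal (aeval z U) ∧
            ∀ q : ℤ[X], q.Monic → q.comp U ∣ f →
              aeval (aeval z U) q = 1 ∨ aeval (aeval z U) q = -1) ∧
      -- an irreducible component whose field is a CM field
      (∀ g : ℤ[X], CMPoly g → g ∣ f →
        (∀ (p : ℕ) [Fact p.Prime], (∀ z ∈ Level1 p f, TotReal z ∧ PM f z ∧ aeval z g = 1) ∧
          (Level1 p f).Finite ∧ (Level1 p f).ncard ≤ g.natDegree) ∧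
        ((∀ w : ℂ, TotReal w → PM f w → aeval w g = 1 → ∃ m : ℤ, w = m) →
          ∀ (p : ℕ) [Fact p.Prime], Settled p f) ∧
        (∀ a : ℤ, (∀ α : ℂ, aeval α g = 0 → |α.re - a| ≤ 1) → ∀ (p : ℕ) [Fact p.Prime],
          Settled p f ∧ ∀ z ∈ Level1 p f, z = a ∨ z = a - 1 ∨ z = a + 1)) ∧
      -- the components `h(X² + bX)`
      (∀ (h : ℤ[X]) (b : ℤ), h.Monic → 0 < h.natDegree →
        (∀ r : ℂ, aeval r h = 0 → r.im = 0 ∧ 4 * r.re < -(b : ℝ) ^ 2) →
        h.comp (X ^ 2 + C b * X) ∣ f → ∀ (p : ℕ) [Fact p.Prime], Settled p f) ∧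
      -- roots of unity
      (∀ m : ℕ, 3 ≤ m →
        (∀ a : ℤ, (cyclotomic m ℤ).comp (X - C a) ∣ f →
          ∀ (p : ℕ) [Fact p.Prime], Settled p f) ∧
        (∀ U : ℤ[X], U.Monic → 0 < U.natDegree → (cyclotomic m ℤ).comp U ∣ f →
          ∀ (p : ℕ) [Fact p.Prime], ∀ z ∈ Level1 p f,
            aeval z U = 0 ∨ aeval z U = 1 ∨ aeval z U = -1))) ∧
    (∀ D N : ℕ, ∃ p, N < p ∧ p.Prime ∧ Good D p) := by
  refine ⟨?_, good_inf⟩
  intro f hf hd
  have real : ∀ (p : ℕ) [Fact p.Prime] (K : Type) [Field K] [NumberField K] [IsCMField K]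
      (θ : 𝓞 K) (U : ℤ[X]), bar K θ ≠ θ → U.Monic → 0 < U.natDegree →
      (U.map (algebraMap ℤ (𝓞 K)) - C θ) ∣ f.map (algebraMap ℤ (𝓞 K)) →
        ∀ z ∈ Level1 p f, TotReal (aeval z U) ∧ ∀ q : ℤ[X], q.Monic → q.comp U ∣ f →
              aeval (aeval z U) q = 1 ∨ aeval (aeval z U) q = -1 := by
    intro p _ K _ _ _ θ U hθ hU hUd hdv z hz
    obtain ⟨h1, h2⟩ := (level_all hf hd hz).real hf hd hθ hU hUd hdv
    refine ⟨h1, fun q hq hqf => ?_⟩
    have h3 := h2 q hq hqf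
    rwa [aeval_comp] at h3
  refine ⟨?_, ?_, ?_, ?_, ?_, ?_, ?_, ?_⟩
  · intro p _ z hz
    obtain ⟨w, hw, hcj⟩ := exists_complex hf hd (level_all hf hd hz).1
    exact ⟨⟨w, hcj⟩, fun w hw => ⟨Cj.isTor hw (level_all hf hd hz).1, (level_all hf hd hz).2 w hw⟩⟩
  · intro h p _
    refine settled_of hf fun z hz => ?_
    obtain ⟨w, hw, hcj⟩ := exists_complex hf hd (level_all hf hd hz).1
    obtain ⟨m, hm⟩ := h w ⟨hw, (level_all hf hd hz).2 w hcj⟩
    exact ⟨m, cj_int hcj hm⟩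
  · intro K _ _ _ g P hg hgf hP hPd hPg hco
    exact few_of hf hd (cm_finite hg hgf hP hPd hPg hco)
  · intro K L _ _ _ _ _ _ θ hθ h0
    obtain ⟨g, P, hg, hgf, hP, hPd, hPg, hco, e1, e2⟩ := field_data (K := K) hθ h0
    have h1 := cm_finite hg hgf hP hPd hPg hco
    rw [e1, e2] at h1
    exact few_of hf hd h1
  · intro K _ _ _ θ U hθ hU hUd hdv p _ z hz
    exact real p K θ U hθ hU hUd hdv z hz
  · intro g hcm hgf
    obtain ⟨h1, h2, h3⟩ := CM19.res19.1 f g hf hcm hgf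
    refine ⟨fun p _ => ⟨fun z hz => ?_, (h1 p).2⟩, fun h => ?_, h3⟩
    · obtain ⟨h4, h5, -, h6⟩ := (h1 p).1 z hz
      exact ⟨h6, h5, h4⟩
    · exact h2 fun w hw hg hq => h w hw hq hg
  · intro h b hh hd' hr hdv p _
    exact CM19.res19.2.2 h f b hh hd' hr hf hdv p
  · intro m hm
    constructor
    · intro a hdv p _
      refine settled_of hf fun z hz => ?_
      have h1 := cyc_point hf hd (level_all hf hd hz) hm (monic_X_sub_C a)
        (by rw [natDegree_X_sub_C]; exact one_pos) hdv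
      rw [map_sub, aeval_X, aeval_C] at h1
      rcases h1 with h2 | h2 | h2
      · refine ⟨a, ?_⟩
        have := sub_eq_zero.1 h2
        simpa using this
      · refine ⟨1 + a, ?_⟩
        have := sub_eq_iff_eq_add.1 h2
        simpa using this
      · refine ⟨-1 + a, ?_⟩
        have := sub_eq_iff_eq_add.1 h2
        simpa using this
    · intro U hU hUd hdv p _ z hz
      exact cyc_point hf hd (level_all hf hd hz) hm hU hUd hdv

end Pool.Agent.Results.MP_fd87b4_nt.CMComponent
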