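import Pool.Agent.H41K.E

/-!
# Weakly global points of level one for the line, the base point being an integral point

`f ∈ ℤ[X]` monic, `F` its homogenization, `𝒟 = V(F) ⊂ ℙ¹_ℤ` and `𝒳 = ℙ¹_ℤ ∖ 𝒟` (kind (i) of the problem when
`f` is squarefree of degree at least three).  The point `b = ∞ = (1 : 0)` is in `𝒳(ℤ)`; conversely every
`(𝒳, b)` of kind (i) with `b ∈ 𝒳(ℤ)` is of this form after an automorphism of `ℙ¹_ℤ`.  Then
`𝒳(ℤ) = {(x : y) : F(x, y) = ± 1}`, `𝒳(ℤ_p) = {(x : y) : F(x, y) ∈ ℤ_p^×}`, and `𝒳(ℤ_p)_1` is the set of the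
`(x : y) ∈ 𝒳(ℤ_p)` such that a power of `x - y X` is in `ℤ_p^×` times the closure of `(ℤ[X]/(f))^×` in
`(ℤ_p[X]/(f))^×` (Kummer theory for the torus `Res 𝔾_m / 𝔾_m`).  Points different from `∞` are represented by
the number `x / y`.

Three components: monic divisors `g, h, k` of `f`, where `h, k` have no common root and some root of `g` is
not a root of `h k`.  A complex number `w` with `f(w) ≠ 0` is a torsion point of `f` if for some `n > 0` we
have `g(w)^(n deg h) = h(w)^(n deg g)` for all monic divisors `g, h` of `f`.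

The starting file `KimConjectureFails` shows `𝒳(ℤ_p)_n ≠ 𝒳(ℤ)` for all `n` and `f = X^d - c` (there `0` is a torsion
point which is not integral).  Here we show that for three components equality holds with `N = 1` for all
primes in most cases.

Idea: for `(x : y)` in `𝒳(ℤ_p)_1` the norms of the components give that
`G(x, y)^(deg h) / H(x, y)^(deg g)` is a root of unity; a complex conjugate `w` of `x / y` satisfies
`g(w)^b g(w̄)^b = h(w)^a h(w̄)^a` and `g(w)^c g(w̄)^c = k(w)^a k(w̄)^a` (`a, b, c` the degrees of `g, h, k`), so it is a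
zero of a resultant, which does not vanish at a root of `g` which is not a root of `h k`.
-/

set_option autoImplicit false

open Polynomial

namespace Pool.Agent.Results.MP_fd87b4_nt.DivisorsWithoutSection

/-- the value `y ^ (deg g) g(x / y)` of the homogenization of `g` -/
noncomputable def hom {R : Type} [CommRing R] (g : ℤ[X]) (x y : R) : R :=
  ∑ i ∈ Finset.range (g.natDegree + 1), (g.coeff i : R) * x ^ i * y ^ (g.natDegree - i)

/-- `𝒳(ℤ)` without `∞` -/
def IntPts (f : ℤ[X]) : Set ℚ := {q | ∃ x y : ℤ, y ≠ 0 ∧ q * y = x ∧ IsUnit (hom f x y)}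

/-- `u` is a unit of `ℤ[X]/(f)` -/
def UnitMod (f u : ℤ[X]) : Prop := ∃ v a : ℤ[X], u * v = 1 + f * a

/-- the class of `P` is in the closure of the image of `(ℤ[X]/(f))^×` in `ℤ_p[X]/(f)` -/
def InClosure (p : ℕ) [Fact p.Prime] (f : ℤ[X]) (P : ℤ_[p][X]) : Prop :=
  ∀ k : ℕ, ∃ u : ℤ[X], UnitMod f u ∧ ∃ b c : ℤ_[p][X],
    P = u.map (Int.castRingHom ℤ_[p]) + f.map (Int.castRingHom ℤ_[p]) * b +
      C ((p : ℤ_[p]) ^ k) * c

/-- `𝒳(ℤ_p)_1` without `∞` -/
def Level1 (p : ℕ) [Fact p.Prime] (f : ℤ[X]) : Set ℚ_[p] :=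
  {t | ∃ x y : ℤ_[p], y ≠ 0 ∧ t * y = x ∧ IsUnit (hom f x y) ∧
    ∃ (n : ℕ) (s : ℤ_[p]), 0 < n ∧ IsUnit s ∧ InClosure p f (C s * (C x - C y * X) ^ n)}

/-- `𝒳(ℤ_p)_1 = 𝒳(ℤ)` -/
def Settled (p : ℕ) [Fact p.Prime] (f : ℤ[X]) : Prop :=
  Level1 p f = (fun q : ℚ => (q : ℚ_[p])) '' IntPts f

/-- the torsion points of `f` -/
def TorsionPts (f : ℤ[X]) : Set ℂ :=
  {w | aeval w f ≠ 0 ∧ ∃ n : ℕ, 0 < n ∧ ∀ g h : ℤ[X], g.Monic → h.Monic → g ∣ f → h ∣ f →
    aeval w g ^ (n * h.natDegree) = aeval w h ^ (n * g.natDegree)}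

/-- `w` is a point of `𝒳(ℤ)` -/
def Integral (f : ℤ[X]) (w : ℂ) : Prop := ∃ x y : ℤ, y ≠ 0 ∧ w * y = x ∧ IsUnit (hom f x y)

/-- three components -/
def Three (f g h k : ℤ[X]) : Prop :=
  g.Monic ∧ h.Monic ∧ k.Monic ∧ g ∣ f ∧ h ∣ f ∧ k ∣ f ∧ 0 < h.natDegree ∧ 0 < k.natDegree ∧
    (∀ z : ℂ, aeval z h = 0 → aeval z k ≠ 0) ∧
    ∃ α : ℂ, aeval α g = 0 ∧ aeval α h ≠ 0 ∧ aeval α k ≠ 0

/-- the ratio of `g(z)^(deg h)` and `h(z)^(deg g)` is `± 1` for all monic divisors `g, h` of `f` -/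
def SignRatios {K : Type} [CommRing K] (f : ℤ[X]) (z : K) : Prop :=
  ∀ g h : ℤ[X], g.Monic → h.Monic → g ∣ f → h ∣ f →
    aeval z g ^ h.natDegree = aeval z h ^ g.natDegree ∨
      aeval z g ^ h.natDegree = - aeval z h ^ g.natDegree

/-- `p ≡ 3 mod 4` and `p ≢ 1 mod q` for all odd primes `q ≤ d + 1` -/
def Good (d p : ℕ) : Prop :=
  p % 4 = 3 ∧ ∀ q : ℕ, q.Prime → q ≠ 2 → q ≤ d + 1 → ¬ q ∣ p - 1

/-- the monic polynomial of degree `a` with the lower coefficients `c` -/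
noncomputable def monicPoly {a : ℕ} (c : Fin a → ℤ) : ℤ[X] :=
  X ^ a + ∑ i : Fin a, C (c i) * X ^ (i : ℕ)

/-- the vectors of `a` coefficients of absolute value at most `H` -/
noncomputable def box (a H : ℕ) : Finset (Fin a → ℤ) :=
  Fintype.piFinset fun _ => Finset.Icc (-(H : ℤ)) H

section proof

open Pool.Agent.N874.WG Pool.Agent.H76K Pool.Agent.H41K

variable {p : ℕ} [Fact p.Prime]

theorem level_tor {f : ℤ[X]} {t : ℚ_[p]} (ht : t ∈ Level1 p f) : IsTor f t := by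
  obtain ⟨x, y, hy, hxy, hu, n, s, hn, hs, h⟩ := ht
  exact isTor_level hy hxy hu hn hs h

theorem sub_level (f : ℤ[X]) : (fun q : ℚ => (q : ℚ_[p])) '' IntPts f ⊆ Level1 p f := by
  rintro _ ⟨q, ⟨x, y, hy, hxy, hu⟩, rfl⟩
  refine ⟨(x : ℤ_[p]), (y : ℤ_[p]), by exact_mod_cast hy, ?_, ?_, 1, 1, one_pos, isUnit_one, ?_⟩
  · have h1 : ((q * y : ℚ) : ℚ_[p]) = ((x : ℚ) : ℚ_[p]) := by rw [hxy]
    push_cast at h1 ⊢
    exact h1
  · have h1 := hu.map (Int.castRingHom ℤ_[p])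
    have h2 : (Int.castRingHom ℤ_[p]) (hom f x y) = hom f (x : ℤ_[p]) (y : ℤ_[p]) :=
      hom_map (Int.castRingHom ℤ_[p]) f x y
    rwa [h2] at h1
  · intro k
    obtain ⟨v, hv⟩ := unit_int f x y
    have hv' : (C x - C y * X) * v = C (hom f x y) - C (y ^ f.natDegree) * f := hv
    have he : hom f x y * hom f x y = 1 := by
      rcases Int.isUnit_iff.1 hu with h | h <;> rw [h] <;> norm_num
    have hC : C (hom f x y) * C (hom f x y) = (1 : ℤ[X]) := by rw [← C_mul, he, C_1]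
    refine ⟨C x - C y * X, ⟨v * C (hom f x y), -(C (y ^ f.natDegree) * C (hom f x y)), ?_⟩,
      0, 0, ?_⟩
    · linear_combination (C (hom f x y)) * hv' + hC
    · simp

theorem settled_of {f : ℤ[X]} (h : ∀ t ∈ Level1 p f, ∃ w : ℂ, Cj t w ∧ Integral f w) :
    Settled p f := by
  refine Set.Subset.antisymm ?_ (sub_level f)
  intro t ht
  obtain ⟨w, hw, x, y, hy, hxy, hu⟩ := h t ht
  have h1 := cj_rat hw hxy
  have hy' : (y : ℚ_[p]) ≠ 0 := by exact_mod_cast hy
  refine ⟨(x : ℚ) / y, ⟨x, y, hy, div_mul_cancel₀ _ (by exact_mod_cast hy), hu⟩, ?_⟩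
  change (((x : ℚ) / y : ℚ) : ℚ_[p]) = t
  push_cast
  rw [div_eq_iff hy', h1]

theorem good_inf (d N : ℕ) : ∃ p, N < p ∧ p.Prime ∧ Good d p := by
  have hM : 4 * (d + 1).factorial ≠ 0 := by positivity
  have : NeZero (4 * (d + 1).factorial) := ⟨hM⟩
  obtain ⟨p, h1, h2, h3⟩ := Nat.forall_exists_prime_gt_and_eq_mod
    (q := 4 * (d + 1).factorial) (a := -1) isUnit_one.neg N
  refine ⟨p, h1, h2, ?_⟩
  have h4 : 4 * (d + 1).factorial ∣ p + 1 := by
    rw [← ZMod.natCast_eq_zero_iff]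
    push_cast
    rw [h3]
    ring
  constructor
  · have := (Dvd.intro _ rfl : 4 ∣ 4 * (d + 1).factorial).trans h4
    omega
  · intro q hq hq2 hqd hqp
    have h5 : q ∣ p + 1 := (((hq.dvd_factorial).2 hqd).trans (Dvd.intro_left _ rfl)).trans h4
    have h6 : q ∣ 2 := by
      have := (Nat.dvd_sub h5 hqp)
      have h7 := h2.one_lt
      have h8 : p + 1 - (p - 1) = 2 := by omega
      rwa [h8] at this
    exact hq2 ((Nat.prime_dvd_prime_iff_eq hq Nat.prime_two).1 h6)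

theorem empty_of {f : ℤ[X]} (h0 : ∀ w : ℂ, ¬ IsTor f w) (p : ℕ) [Fact p.Prime] :
    Level1 p f = ∅ ∧ IntPts f = ∅ := by
  have h1 : Level1 p f = ∅ := by
    rw [Set.eq_empty_iff_forall_notMem]
    intro t ht
    obtain ⟨w, hw⟩ := exists_tor (level_tor ht)
    exact h0 w hw
  refine ⟨h1, ?_⟩
  rw [Set.eq_empty_iff_forall_notMem]
  intro q hq
  have h2 := sub_level (p := p) f ⟨q, hq, rfl⟩
  rw [h1] at h2
  exact h2

end proof

open Pool.Agent.N874.WG Pool.Agent.H76K Pool.Agent.H41K in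
open scoped Classical in
theorem result :
    -- integral points are of level one
    (∀ (f : ℤ[X]) (p : ℕ) [Fact p.Prime],
      (fun q : ℚ => (q : ℚ_[p])) '' IntPts f ⊆ Level1 p f) ∧
    (∀ f g h k : ℤ[X], f.Monic → Three f g h k →
      -- points of level one and torsion points
      (∀ (p : ℕ) [Fact p.Prime], ∀ t ∈ Level1 p f, ∃ w ∈ TorsionPts f,
        ∀ Q : ℤ[X], aeval t Q = 0 ↔ aeval w Q = 0) ∧
      -- the bounds
      ((TorsionPts f).Finite ∧
        (TorsionPts f).ncard ≤ 2 * (g.natDegree ^ 2 * h.natDegree * k.natDegree)) ∧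
      (∀ (p : ℕ) [Fact p.Prime], (Level1 p f).Finite ∧
        (Level1 p f).ncard ≤ 2 * (g.natDegree ^ 2 * h.natDegree * k.natDegree)) ∧
      -- the criterion for all primes
      ((∀ w ∈ TorsionPts f, Integral f w) → ∀ (p : ℕ) [Fact p.Prime], Settled p f) ∧
      -- the criterion for special primes
      (∀ (p : ℕ) [Fact p.Prime], Good (2 * (g.natDegree ^ 2 * h.natDegree * k.natDegree)) p →
        (∀ t ∈ Level1 p f, SignRatios f t) ∧
        ((∀ w : ℂ, aeval w f ≠ 0 → SignRatios f w → Integral f w) → Settled p f))) ∧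
    (∀ d N : ℕ, ∃ p, N < p ∧ p.Prime ∧ Good d p) ∧
    -- shifted components
    (∀ (f g : ℤ[X]) (m m' : ℤ), f.Monic → g.Monic → 0 < g.natDegree → m ≠ 0 → m' ≠ 0 → m ≠ m' →
      g * (g + C m) * (g + C m') ∣ f →
        ∀ (p : ℕ) [Fact p.Prime], Level1 p f = ∅ ∧ IntPts f = ∅) ∧
    -- all but finitely many shifts of the third component
    (∀ a b c : ℕ, 0 < b → 0 < c → ∃ K : ℕ, ∀ g h k : ℤ[X], g.Monic → h.Monic → k.Monic →
      g.natDegree = a → h.natDegree = b → k.natDegree = c →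
        (∃ α : ℂ, aeval α g = 0 ∧ aeval α h ≠ 0) →
          {m : ℤ | ¬ ∀ f : ℤ[X], f.Monic → g * h * (k + C m) ∣ f →
            ∀ (p : ℕ) [Fact p.Prime], Level1 p f = ∅ ∧ IntPts f = ∅}.Finite ∧
          {m : ℤ | ¬ ∀ f : ℤ[X], f.Monic → g * h * (k + C m) ∣ f →
            ∀ (p : ℕ) [Fact p.Prime], Level1 p f = ∅ ∧ IntPts f = ∅}.ncard ≤ K) ∧
    -- 100 per cent of the triples
    (∀ a b c : ℕ, 0 < a → 0 < b → 0 < c → ∃ K : ℕ, ∀ H : ℕ,
      ((box a H ×ˢ (box b H ×ˢ box c H)).filter fun q => ¬ ∀ f : ℤ[X], f.Monic →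
        monicPoly q.1 * monicPoly q.2.1 * monicPoly q.2.2 ∣ f →
          ∀ (p : ℕ) [Fact p.Prime], Level1 p f = ∅ ∧ IntPts f = ∅).card ≤
        K * (2 * H + 1) ^ (a + b + c - 1) ∧
      (box a H ×ˢ (box b H ×ˢ box c H)).card = (2 * H + 1) ^ (a + b + c)) := by
  refine ⟨fun f p _ => sub_level f, ?_, good_inf, ?_, ?_, ?_⟩
  · intro f g h k hf t
    have t' : Pool.Agent.H41K.Three f g h k := t
    have hR := t'.ne
    have hRd := R3_natDegree t.1 t.2.1 t.2.2.1
    have alg : ∀ (p : ℕ) [Fact p.Prime], ∀ z ∈ Level1 p f, ∃ w : ℂ, IsTor f w ∧ Cj z w := by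
      intro p _ z hz
      obtain ⟨hg, hh, hk, hgf, hhf, hkf, hd, hd', hc, α, h1, h2, h3⟩ := t
      have hz' := level_tor hz
      exact exists_complex hz' (hz'.alg hg hh hgf hhf hd h1 h2)
    refine ⟨?_, ?_, ?_, ?_, ?_⟩
    · intro p _ z hz
      obtain ⟨w, hw, hcj⟩ := alg p z hz
      exact ⟨w, hw, hcj⟩
    · obtain ⟨h1, h2⟩ := card_roots_le hR (TorsionPts f) fun w hw => t'.root hw
      exact ⟨h1, h2.trans hRd⟩
    · intro p _
      obtain ⟨h1, h2⟩ := card_roots_le hR (Level1 p f) fun w hw => t'.root (level_tor hw)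
      exact ⟨h1, h2.trans hRd⟩
    · intro hI p _
      refine settled_of fun z hz => ?_
      obtain ⟨w, hw, hcj⟩ := alg p z hz
      exact ⟨w, hcj, hI w hw⟩
    · intro p _ hgood
      have hpm : ∀ z ∈ Level1 p f, SignRatios f z := by
        intro z hz q r hq hr hqf hrf
        exact pm (level_tor hz) hR (t'.root (level_tor hz)) hRd hgood.1 hgood.2 hq hqf hr hrf
      refine ⟨hpm, fun hI => settled_of fun z hz => ?_⟩
      obtain ⟨w, hw, hcj⟩ := alg p z hz
      refine ⟨w, hcj, hI w hw.1 fun q r hq hr hqf hrf => ?_⟩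
      rcases hpm z hz q r hq hr hqf hrf with h1 | h1
      · left
        have h2 := (hcj (q ^ r.natDegree - r ^ q.natDegree)).1 (by
          rw [map_sub, map_pow, map_pow, h1, sub_self])
        rw [map_sub, map_pow, map_pow, sub_eq_zero] at h2
        exact h2
      · right
        have h2 := (hcj (q ^ r.natDegree + r ^ q.natDegree)).1 (by
          rw [map_add, map_pow, map_pow, h1, neg_add_cancel])
        rw [map_add, map_pow, map_pow] at h2
        exact eq_neg_of_add_eq_zero_left h2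
  · intro f g m m' hf hg hd h1 h2 h3 hgf p _
    exact empty_of (no_tor hg hd h1 h2 h3 hgf) p
  · intro a b c hb hc
    refine ⟨1 + b + a ^ 2 * b * NN a b c ^ 2, fun g h k hg hh hk hga hhb hkc hα => ?_⟩
    obtain ⟨α, hα, hα'⟩ := hα
    obtain ⟨h1, h2⟩ := card_shift a b c g h k hg hh hk hga hhb hkc hb hc hα hα'
    have hsub : {m : ℤ | ¬ ∀ f : ℤ[X], f.Monic → g * h * (k + C m) ∣ f →
        ∀ (p : ℕ) [Fact p.Prime], Level1 p f = ∅ ∧ IntPts f = ∅} ⊆
        {m : ℤ | ∃ w : ℂ, IsTor (g * h * (k + C m)) w} := by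
      intro m hm
      by_contra hcon
      apply hm
      intro f hf hdvd p _
      exact empty_of (fun w hw => hcon ⟨w, hw.dvd hdvd⟩) p
    exact ⟨h1.subset hsub, (Set.ncard_le_ncard hsub h1).trans h2⟩
  · intro a b c ha hb hc
    refine ⟨2 + b + a ^ 2 * b * NN a b c ^ 2, fun H => ⟨?_, ?_⟩⟩
    · refine le_trans (Finset.card_le_card ?_) (card_triples a b c ha hb hc H)
      rintro q hq
      obtain ⟨h1, h2⟩ := Finset.mem_filter.1 hq
      refine Finset.mem_filter.2 ⟨h1, ?_⟩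
      by_contra hcon
      push Not at hcon
      apply h2
      intro f hf hdvd p _
      exact empty_of (fun w hw => hcon w (hw.dvd hdvd)) p
    · have h1 : ∀ n : ℕ, (box n H).card = (2 * H + 1) ^ n := fun n => card_bx n H
      rw [Finset.card_product, Finset.card_product, h1, h1, h1]
      ring

end Pool.Agent.Results.MP_fd87b4_nt.DivisorsWithoutSection
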