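import Pool.Agent.H76K.O

/-!
# Weakly global points of level one for the line minus the zeros of a norm form of an imaginary quadratic field

`f ∈ ℤ[X]` monic, `𝒟 = ∞ ∪ V(f) ⊂ ℙ¹_ℤ`, `𝒳 = ℙ¹_ℤ ∖ 𝒟` (kind (i) of the problem when `f` is squarefree
of degree at least two).  Then `𝒳(ℤ) = {z ∈ ℤ : f(z) ∈ ℤ^×}`, `𝒳(ℤ_p) = {z ∈ ℤ_p : f(z) ∈ ℤ_p^×}`, and
`𝒳(ℤ_p)_1` is the set `Level1` of the `z ∈ 𝒳(ℤ_p)` such that a power of `z - X` is in the closure of
`(ℤ[X]/(f))^×` in `(ℤ_p[X]/(f))^×` (Kummer theory; see the starting file `LevelOneForTheLine`, whose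
definitions are used here).  As the sets decrease with the level, `𝒳(ℤ_p)_1 = 𝒳(ℤ)` is question Q1 with
`N = 1`.

Let `A, B ∈ ℤ[X]`, `A` monic, `deg B < deg A`, and let `f` be divisible by `A² + bAB + cB²`, `b² < 4c`.  (If
the field of an irreducible divisor `g` of `f` contains an imaginary quadratic field with the ring of
integers `ℤ[θ]`, `θ² + bθ + c = 0`, then `g = (A - θB)(A - θ̄B)` is of this form.)

Results, for every prime `p` and every `z ∈ 𝒳(ℤ_p)_1`.
* If `b² - 4c < -4`: `B(z) = 0` and `A(z)` is a root of unity; at most `deg B` points if `B ≠ 0`, so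
  `𝒳(ℤ_p)_1 = ∅ = 𝒳(ℤ)` if `B` is a nonzero constant.
* If `A² + B²` divides `f`: one of `A(z)`, `B(z)` is zero, the other one a root of unity; at most
  `deg A + deg B` points if `B ≠ 0`.  (The forms of discriminant `-4` are `(A + kB)² + B²`.)
* If `A² + AB + B²` divides `f`: one of `A(z)`, `B(z)`, `A(z) + B(z)` is zero, the other ones are roots of unity;
  at most `2 deg A + deg B` points if `B ≠ 0`.  (Discriminant `-3`.)
* For all degrees `a > b` and 100 per cent of the pairs `(A, B)` we have `𝒳(ℤ_p)_1 = ∅ = 𝒳(ℤ)` for ALL `p`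
  and ALL `f` divisible by `A² + B²`, `A² + AB + B²` or one of the forms of discriminant below `-4`: among the
  `(2H+1)^(a+b+1)` pairs with coefficients bounded by `H` there are at most `C (2H+1)^(a+b)` exceptions.

Idea: the norm of `ℤ[X]/(f)` to `O = ℤ[θ]` given by `P = A - θB` sends units to units, so `P(z)` and `P̄(z)` are
roots of unity; at every complex conjugate `w` of `z` this gives the positive definite form
`|A(w)|² + b Re(A(w) B(w)^-) + c |B(w)|² = 1`, hence `|B(w)| < 1`, `|A(w) B(w)| < 1`,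
`|A(w) B(w) (A(w) + B(w))| < 1` in the three cases; an algebraic integer all of whose conjugates are of
absolute value less than one is zero.
-/

set_option autoImplicit false

open Polynomial

namespace Pool.Agent.Results.MP_fd87b4_nt.NormForms

/-- `𝒳(ℤ)` -/
def IntPts (f : ℤ[X]) : Set ℤ := {z | IsUnit (f.eval z)}

/-- `𝒳(ℤ_p)` -/
def PadicPts (p : ℕ) [Fact p.Prime] (f : ℤ[X]) : Set ℤ_[p] :=
  {z | IsUnit ((f.map (Int.castRingHom ℤ_[p])).eval z)}

/-- `u` is a unit of `ℤ[X]/(f)` -/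
def UnitMod (f u : ℤ[X]) : Prop := ∃ v a : ℤ[X], u * v = 1 + f * a

/-- the class of `P` is in the closure of the image of `(ℤ[X]/(f))^×` in `ℤ_p[X]/(f)` -/
def InClosure (p : ℕ) [Fact p.Prime] (f : ℤ[X]) (P : ℤ_[p][X]) : Prop :=
  ∀ k : ℕ, ∃ u : ℤ[X], UnitMod f u ∧ ∃ b c : ℤ_[p][X],
    P = u.map (Int.castRingHom ℤ_[p]) + f.map (Int.castRingHom ℤ_[p]) * b +
      C ((p : ℤ_[p]) ^ k) * c

/-- `𝒳(ℤ_p)_1` -/
def Level1 (p : ℕ) [Fact p.Prime] (f : ℤ[X]) : Set ℤ_[p] :=
  {z | z ∈ PadicPts p f ∧ ∃ n : ℕ, 0 < n ∧ InClosure p f ((C z - X) ^ n)}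

/-- the norm form `A² + bAB + cB²` -/
noncomputable def form (b c : ℤ) (A B : ℤ[X]) : ℤ[X] := A ^ 2 + C b * A * B + C c * B ^ 2

/-- a root of unity -/
def RootOfUnity {R : Type} [CommRing R] (x : R) : Prop := ∃ n : ℕ, 0 < n ∧ x ^ n = 1

/-- at most `D` points of level one -/
def AtMost (p : ℕ) [Fact p.Prime] (f : ℤ[X]) (D : ℕ) : Prop :=
  (Level1 p f).Finite ∧ (Level1 p f).ncard ≤ D

/-- no points of level one, and no integral points -/
def Empty (p : ℕ) [Fact p.Prime] (f : ℤ[X]) : Prop := Level1 p f = ∅ ∧ IntPts f = ∅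

/-- the monic polynomial of degree `a` with the lower coefficients `c` -/
noncomputable def monicPoly {a : ℕ} (c : Fin a → ℤ) : ℤ[X] :=
  X ^ a + ∑ i : Fin a, C (c i) * X ^ (i : ℕ)

/-- the polynomial with the coefficients `d` -/
noncomputable def poly {b : ℕ} (d : Fin b → ℤ) : ℤ[X] := ∑ i : Fin b, C (d i) * X ^ (i : ℕ)

/-- the vectors of `a` coefficients of absolute value at most `H` -/
noncomputable def box (a H : ℕ) : Finset (Fin a → ℤ) :=
  Fintype.piFinset fun _ => Finset.Icc (-(H : ℤ)) H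

section proof

open Pool.Agent.N874.WG Pool.Agent.H76K

variable {p : ℕ} [Fact p.Prime]

theorem mem_level (f : ℤ[X]) (x : ℤ) (hx : x ∈ IntPts f) : (x : ℤ_[p]) ∈ Level1 p f := by
  have hx' : f.eval x = 1 ∨ f.eval x = -1 := Int.isUnit_iff.1 hx
  refine ⟨?_, 1, one_pos, approx_int f x hx'⟩
  change IsUnit ((toP p f).eval (x : ℤ_[p]))
  rw [toP_eval_int]
  rcases hx' with h | h <;> rw [h] <;> simp

theorem level_all {f : ℤ[X]} (hf : f.Monic) (hd : 0 < f.natDegree) {z : ℤ_[p]}
    (hz : z ∈ Level1 p f) : AllTor f z := by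
  obtain ⟨-, n, hn, h⟩ := hz
  exact allTor hf hd hn h

theorem atMost_of {f Q : ℤ[X]} (hQ : Q ≠ 0) (h : ∀ z ∈ Level1 p f, aeval z Q = 0) :
    AtMost p f Q.natDegree := by
  classical
  have hQm : Q.map (algebraMap ℤ ℤ_[p]) ≠ 0 :=
    (Polynomial.map_ne_zero_iff (algebraMap ℤ ℤ_[p]).injective_int).2 hQ
  have hsub : Level1 p f ⊆ ((Q.map (algebraMap ℤ ℤ_[p])).roots.toFinset : Set ℤ_[p]) := by
    intro z hz
    rw [Finset.mem_coe, Multiset.mem_toFinset, mem_roots hQm, IsRoot.def, eval_map_algebraMap]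
    exact h z hz
  refine ⟨(Finset.finite_toSet _).subset hsub, ?_⟩
  refine (Set.ncard_le_ncard hsub (Finset.finite_toSet _)).trans ?_
  rw [Set.ncard_coe_finset]
  exact (Multiset.toFinset_card_le _).trans ((card_roots' _).trans natDegree_map_le)

theorem empty_of {f : ℤ[X]} (h : Level1 p f = ∅) : Empty p f := by
  refine ⟨h, ?_⟩
  rw [Set.eq_empty_iff_forall_notMem]
  intro x hx
  have h4 := mem_level (p := p) f x hx
  rw [h] at h4
  exact h4

end proof

open Pool.Agent.N874.WG Pool.Agent.H76K in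
open scoped Classical in
theorem result :
    (∀ f : ℤ[X], f.Monic → 0 < f.natDegree → ∀ A B : ℤ[X], A.Monic → B.degree < A.degree →
      -- discriminant below `-4`
      (∀ b c : ℤ, b ^ 2 + 4 < 4 * c → form b c A B ∣ f → ∀ (p : ℕ) [Fact p.Prime],
        (∀ z ∈ Level1 p f, aeval z B = 0 ∧ RootOfUnity (aeval z A)) ∧
        (B ≠ 0 → AtMost p f B.natDegree) ∧
        (∀ m : ℤ, m ≠ 0 → B = C m → Empty p f)) ∧
      -- discriminant `-4`
      (form 0 1 A B ∣ f → ∀ (p : ℕ) [Fact p.Prime],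
        (∀ z ∈ Level1 p f, (aeval z B = 0 ∧ RootOfUnity (aeval z A)) ∨
          (aeval z A = 0 ∧ RootOfUnity (aeval z B))) ∧
        (B ≠ 0 → AtMost p f (A.natDegree + B.natDegree))) ∧
      -- discriminant `-3`
      (form 1 1 A B ∣ f → ∀ (p : ℕ) [Fact p.Prime],
        (∀ z ∈ Level1 p f, (aeval z B = 0 ∧ RootOfUnity (aeval z A)) ∨
          (aeval z A = 0 ∧ RootOfUnity (aeval z B)) ∨
          (aeval z A + aeval z B = 0 ∧ RootOfUnity (aeval z A))) ∧
        (B ≠ 0 → AtMost p f (2 * A.natDegree + B.natDegree)))) ∧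
    -- 100 per cent of the pairs
    (∀ a b : ℕ, b < a → ∃ K : ℕ, ∀ H : ℕ,
      ((box a H ×ˢ box (b + 1) H).filter fun c => ¬ ∀ u v : ℤ,
        (u ^ 2 + 4 < 4 * v ∨ (u = 0 ∧ v = 1) ∨ (u = 1 ∧ v = 1)) →
        ∀ f : ℤ[X], f.Monic → form u v (monicPoly c.1) (poly c.2) ∣ f →
          ∀ (p : ℕ) [Fact p.Prime], Empty p f).card ≤ K * (2 * H + 1) ^ (a + b) ∧
      (box a H ×ˢ box (b + 1) H).card = (2 * H + 1) ^ (a + b + 1)) := by
  refine ⟨?_, ?_⟩
  · intro f hf hd A B hA hB
    refine ⟨?_, ?_, ?_⟩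
    · intro b c hbc hdv p _
      have h1 : ∀ z ∈ Level1 p f, aeval z B = 0 ∧ RootOfUnity (aeval z A) := fun z hz =>
        norm_form hf hd (level_all hf hd hz) hbc hA hB hdv
      refine ⟨h1, fun hB0 => atMost_of hB0 fun z hz => (h1 z hz).1, ?_⟩
      intro m hm hBm
      apply empty_of
      rw [Set.eq_empty_iff_forall_notMem]
      intro z hz
      have h2 := (h1 z hz).1
      rw [hBm, aeval_C] at h2
      exact hm (by simpa using h2)
    · intro hdv p _
      have h1 : ∀ z ∈ Level1 p f, (aeval z B = 0 ∧ RootOfUnity (aeval z A)) ∨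
          (aeval z A = 0 ∧ RootOfUnity (aeval z B)) := fun z hz =>
        form_four hf hd (level_all hf hd hz) hA hB hdv
      refine ⟨h1, fun hB0 => ?_⟩
      rw [← natDegree_mul hA.ne_zero hB0]
      refine atMost_of (mul_ne_zero hA.ne_zero hB0) fun z hz => ?_
      rw [map_mul]
      rcases h1 z hz with h2 | h2
      · rw [h2.1, mul_zero]
      · rw [h2.1, zero_mul]
    · intro hdv p _
      have h1 : ∀ z ∈ Level1 p f, (aeval z B = 0 ∧ RootOfUnity (aeval z A)) ∨
          (aeval z A = 0 ∧ RootOfUnity (aeval z B)) ∨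
          (aeval z A + aeval z B = 0 ∧ RootOfUnity (aeval z A)) := fun z hz =>
        form_three hf hd (level_all hf hd hz) hA hB hdv
      refine ⟨h1, fun hB0 => ?_⟩
      have hAB : (A + B).Monic := hA.add_of_left hB
      have hdg : (A * B * (A + B)).natDegree = 2 * A.natDegree + B.natDegree := by
        rw [natDegree_mul (mul_ne_zero hA.ne_zero hB0) hAB.ne_zero,
          natDegree_mul hA.ne_zero hB0, natDegree_add_eq_left_of_degree_lt hB]
        ring
      rw [← hdg]
      refine atMost_of (mul_ne_zero (mul_ne_zero hA.ne_zero hB0) hAB.ne_zero) fun z hz => ?_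
      rw [map_mul, map_mul, map_add]
      rcases h1 z hz with h2 | h2 | h2
      · rw [h2.1, mul_zero, zero_mul]
      · rw [h2.1, zero_mul, zero_mul]
      · rw [h2.1, mul_zero]
  · intro a b hab
    refine ⟨(1 + b * (2 * b).factorial) + a * (2 * a).factorial +
      2 ^ a * (a * (2 * a).factorial), fun H => ⟨?_, ?_⟩⟩
    · refine le_trans (Finset.card_le_card ?_) (card_all a b H hab)
      rintro ⟨c, d⟩ hcd
      obtain ⟨h1, h2⟩ := Finset.mem_filter.1 hcd
      refine Finset.mem_filter.2 ⟨h1, ?_⟩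
      by_contra hno
      apply h2
      intro u v huv f hf hdvd p _
      have hA : (mo c).Monic := mo_monic c
      have hB : (lo d).degree < (mo c).degree := by
        refine (lo_degree d).trans_le ?_
        rw [degree_eq_natDegree hA.ne_zero, mo_natDegree]
        exact_mod_cast hab
      have hdvd' : nf u v (mo c) (lo d) ∣ f := hdvd
      have hd : 0 < f.natDegree := by
        have h3 := natDegree_le_of_dvd hdvd' hf.ne_zero
        rw [nf_natDegree hA hB, mo_natDegree] at h3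
        omega
      apply empty_of
      rw [Set.eq_empty_iff_forall_notMem]
      intro z hz
      have hz' := level_all hf hd hz
      obtain ⟨w, hw, hcj⟩ := exists_complex hf hd hz'.1
      have b1 : aeval z (lo d) = 0 → (∃ n : ℕ, 0 < n ∧ aeval z (mo c) ^ n = 1) → False := by
        rintro h4 ⟨n, hn, h5⟩
        exact hno (Or.inl ⟨w, (hcj _).1 h4, n, hn, hcj.tor h5⟩)
      have b2 : aeval z (mo c) = 0 → (∃ n : ℕ, 0 < n ∧ aeval z (lo d) ^ n = 1) → False := by
        rintro h4 ⟨n, hn, h5⟩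
        exact hno (Or.inr (Or.inl ⟨w, (hcj _).1 h4, n, hn, hcj.tor h5⟩))
      have b3 : aeval z (mo c) + aeval z (lo d) = 0 →
          (∃ n : ℕ, 0 < n ∧ aeval z (mo c) ^ n = 1) → False := by
        rintro h4 ⟨n, hn, h5⟩
        refine hno (Or.inr (Or.inr ⟨w, ?_, n, hn, hcj.tor h5⟩))
        have h6 := (hcj (mo c + lo d)).1 (by rw [map_add]; exact h4)
        rwa [map_add] at h6
      rcases huv with h3 | ⟨rfl, rfl⟩ | ⟨rfl, rfl⟩
      · obtain ⟨h4, h5⟩ := norm_form hf hd hz' h3 hA hB hdvd'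
        exact b1 h4 h5
      · rcases form_four hf hd hz' hA hB hdvd' with ⟨h4, h5⟩ | ⟨h4, h5⟩
        · exact b1 h4 h5
        · exact b2 h4 h5
      · rcases form_three hf hd hz' hA hB hdvd' with ⟨h4, h5⟩ | ⟨h4, h5⟩ | ⟨h4, h5⟩
        · exact b1 h4 h5
        · exact b2 h4 h5
        · exact b3 h4 h5
    · rw [Finset.card_product]
      have e1 : (box a H).card = (2 * H + 1) ^ a := card_bx a H
      have e2 : (box (b + 1) H).card = (2 * H + 1) ^ (b + 1) := card_bx (b + 1) H
      rw [e1, e2]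
      ring

end Pool.Agent.Results.MP_fd87b4_nt.NormForms
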