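import Pool.Agent.H76K.E

/-!
# Weakly global points of level one for the line minus a divisor with at least two finite components

`f ∈ ℤ[X]` monic, `𝒟 = ∞ ∪ V(f) ⊂ ℙ¹_ℤ`, `𝒳 = ℙ¹_ℤ ∖ 𝒟` (kind (i) of the problem when `f` is squarefree
of degree at least two).  Then `𝒳(ℤ) = {z ∈ ℤ : f(z) ∈ ℤ^×}`, `𝒳(ℤ_p) = {z ∈ ℤ_p : f(z) ∈ ℤ_p^×}`, and
`𝒳(ℤ_p)_1` is the set `Level1` of the `z ∈ 𝒳(ℤ_p)` such that a power of `z - X` is in the closure of
`(ℤ[X]/(f))^×` in `(ℤ_p[X]/(f))^×` (Kummer theory; see the starting file `LevelOneForTheLine`, whose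
definitions are used here).

A complex number `w` is called a torsion point of `f` if `g(w)` is a root of unity for every monic
divisor `g ∈ ℤ[X]` of `f`.

Results (`g`, `h` monic divisors of `f`, not all roots of `g` are roots of `h`, `h ≠ 1`).
* Every point of `𝒳(ℤ_p)_1` is algebraic and conjugate to a torsion point of `f`.
* If all torsion points of `f` are integers then `𝒳(ℤ_p)_1 = 𝒳(ℤ)` (question Q1 with `N = 1`, as the sets
  decrease) for every prime `p`.
* There are at most `2 deg g deg h` torsion points, and at most `2 deg g deg h` points in `𝒳(ℤ_p)_1`, for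
  every `p`.
* `𝒳(ℤ_p)_1 = 𝒳(ℤ)` for infinitely many `p` if every real number at which all monic divisors of `f` have
  the values `± 1` is an integer.
* For every `p ≡ 3 mod 4` with `p ≢ 1 mod q` for all odd primes `q ≤ 2 deg g deg h + 1` all monic divisors of
  `f` have the values `± 1` on `𝒳(ℤ_p)_1`.
* `𝒳(ℤ_p)_1 = ∅ = 𝒳(ℤ)` for all `p` if `g (g + c)` divides `f` for some `g ≠ 1` and `|c| ≥ 3`.
* For all `a, b ≥ 1` and 100 per cent of the pairs of monic polynomials `g, h` of degrees `a, b` we have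
  `𝒳(ℤ_p)_1 = ∅ = 𝒳(ℤ)` for all `p` and for all `f` divisible by `g h`; among the `(2H+1)^(a+b)` pairs with
  coefficients bounded by `H` there are at most `C (2H+1)^(a+b-1)` exceptions.

Idea: the norm of the components gives that `g(z)` and `h(z)` are roots of unity; a complex conjugate `w`
of `z` satisfies `g(w) g(w̄) = 1 = h(w) h(w̄)`, so it is a zero of the resultant of `g(z) g(w) - 1` and
`h(z) h(w) - 1`, which is not zero because it is `± h(α)^(deg g)` at a root `α` of `g`.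
-/

set_option autoImplicit false

open Polynomial

namespace Pool.Agent.Results.MP_fd87b4_nt.TwoComponents

/-- `𝒳(ℤ)` -/
def IntPts (f : ℤ[X]) : Set ℤ := {z | IsUnit (f.eval z)}

/-- `𝒳(ℤ_p)` -/
def PadicPts (p : ℕ) [Fact p.Prime] (f : ℤ[X]) : Set ℤ_[p] :=
  {z | IsUnit ((f.map (Int.castRingHom ℤ_[p])).eval z)}

/-- `u` is a unit of `ℤ[X]/(f)` -/
def UnitMod (f u : ℤ[X]) : Prop := ∃ v a : ℤ[X], u * v = 1 + f * a

/-- the class of `P` is in the closure of the image of `(ℤ[X]/(f))^×` in `ℤ_p[X]/(f)` -/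
def InClosure (p : ℕ) [Fact p.Prime] (f : ℤ[X]) (P : ℤ_[p][X]) : Prop :=
  ∀ k : ℕ, ∃ u : ℤ[X], UnitMod f u ∧ ∃ b c : ℤ_[p][X],
    P = u.map (Int.castRingHom ℤ_[p]) + f.map (Int.castRingHom ℤ_[p]) * b +
      C ((p : ℤ_[p]) ^ k) * c

/-- `𝒳(ℤ_p)_1` -/
def Level1 (p : ℕ) [Fact p.Prime] (f : ℤ[X]) : Set ℤ_[p] :=
  {z | z ∈ PadicPts p f ∧ ∃ n : ℕ, 0 < n ∧ InClosure p f ((C z - X) ^ n)}

/-- `𝒳(ℤ_p)_1 = 𝒳(ℤ)` -/
def Settled (p : ℕ) [Fact p.Prime] (f : ℤ[X]) : Prop :=
  Level1 p f = (fun z : ℤ => (z : ℤ_[p])) '' IntPts f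

/-- the torsion points of `f` -/
def TorsionPts (f : ℤ[X]) : Set ℂ :=
  {w | ∀ g : ℤ[X], g.Monic → g ∣ f → ∃ n : ℕ, 0 < n ∧ aeval w g ^ n = 1}

/-- `g` and `h ≠ 1` are monic divisors of `f`, and some root of `g` is not a root of `h` -/
def Two (f g h : ℤ[X]) : Prop :=
  g.Monic ∧ h.Monic ∧ g ∣ f ∧ h ∣ f ∧ 0 < h.natDegree ∧ ∃ α : ℂ, aeval α g = 0 ∧ aeval α h ≠ 0

/-- `p ≡ 3 mod 4` and `p ≢ 1 mod q` for all odd primes `q ≤ 2d + 1` -/
def Good (d p : ℕ) : Prop :=
  p % 4 = 3 ∧ ∀ q : ℕ, q.Prime → q ≠ 2 → q ≤ 2 * d + 1 → ¬ q ∣ p - 1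

/-- the monic polynomial of degree `a` with the lower coefficients `c` -/
noncomputable def monicPoly {a : ℕ} (c : Fin a → ℤ) : ℤ[X] :=
  X ^ a + ∑ i : Fin a, C (c i) * X ^ (i : ℕ)

/-- the vectors of `a` coefficients of absolute value at most `H` -/
noncomputable def box (a H : ℕ) : Finset (Fin a → ℤ) :=
  Fintype.piFinset fun _ => Finset.Icc (-(H : ℤ)) H

section proof

open Pool.Agent.N874.WG Pool.Agent.H76K

variable {p : ℕ} [Fact p.Prime]

theorem mem_level (f : ℤ[X]) (x : ℤ) (hx : x ∈ IntPts f) : (x : ℤ_[p]) ∈ Level1 p f := by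
  have hx' : f.eval x = 1 ∨ f.eval x = -1 := Int.isUnit_iff.1 hx
  refine ⟨?_, 1, one_pos, approx_int f x hx'⟩
  change IsUnit ((toP p f).eval (x : ℤ_[p]))
  rw [toP_eval_int]
  rcases hx' with h | h <;> rw [h] <;> simp

theorem level_tor {f : ℤ[X]} {z : ℤ_[p]} (hz : z ∈ Level1 p f) : IsTor f z := by
  obtain ⟨-, n, hn, h⟩ := hz
  exact isTor_of hn h

theorem settled_of {f : ℤ[X]} (hf : f.Monic)
    (h : ∀ z : ℤ_[p], z ∈ Level1 p f → ∃ x : ℤ, z = x) : Settled p f := by
  refine Set.Subset.antisymm ?_ ?_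
  · intro z hz
    obtain ⟨x, rfl⟩ := h z hz
    obtain ⟨-, n, hn, hz⟩ := hz
    have h1 := f_pow hf hz
    rw [toP_eval_int] at h1
    exact ⟨x, Int.isUnit_iff.2 (int_pm (by omega : 0 < 2 * n) h1), rfl⟩
  · rintro z ⟨x, hx, rfl⟩
    exact mem_level f x hx

theorem good_inf (d N : ℕ) : ∃ p, N < p ∧ p.Prime ∧ Good d p := by
  have hM : 4 * (2 * d + 1).factorial ≠ 0 := by positivity
  have : NeZero (4 * (2 * d + 1).factorial) := ⟨hM⟩
  obtain ⟨p, h1, h2, h3⟩ := Nat.forall_exists_prime_gt_and_eq_mod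
    (q := 4 * (2 * d + 1).factorial) (a := -1) isUnit_one.neg N
  refine ⟨p, h1, h2, ?_⟩
  have h4 : 4 * (2 * d + 1).factorial ∣ p + 1 := by
    rw [← ZMod.natCast_eq_zero_iff]
    push_cast
    rw [h3]
    ring
  constructor
  · have := (Dvd.intro _ rfl : 4 ∣ 4 * (2 * d + 1).factorial).trans h4
    omega
  · intro q hq hq2 hqd hqp
    have h5 : q ∣ p + 1 := (((hq.dvd_factorial).2 hqd).trans (Dvd.intro_left _ rfl)).trans h4
    have h6 : q ∣ 2 := by
      have := (Nat.dvd_sub h5 hqp)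
      have h7 := h2.one_lt
      have h8 : p + 1 - (p - 1) = 2 := by omega
      rwa [h8] at this
    exact hq2 ((Nat.prime_dvd_prime_iff_eq hq Nat.prime_two).1 h6)

theorem Two.pos {f g h : ℤ[X]} (t : Two f g h) : 0 < g.natDegree := by
  obtain ⟨hg, -, -, -, -, α, h1, -⟩ := t
  rw [Nat.pos_iff_ne_zero]
  intro h0
  rw [eq_one_of_monic_natDegree_zero hg h0, map_one] at h1
  exact one_ne_zero h1

theorem Two.ne {f g h : ℤ[X]} (t : Two f g h) : Rs g h ≠ 0 := by
  obtain ⟨-, hh, -, -, hd, α, h1, h2⟩ := t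
  exact Rs_ne hh hd h1 h2

theorem Two.root {K : Type} [Field K] [CharZero K] {f g h : ℤ[X]} (t : Two f g h) {w : K}
    (hw : IsTor f w) : aeval w (Rs g h) = 0 :=
  hw.root t.1 t.2.2.1 t.pos t.2.1 t.2.2.2.1

theorem Two.root' {f g h : ℤ[X]} (t : Two f g h) {z : ℤ_[p]} (hz : IsTor f z) :
    aeval z (Rs g h) = 0 := by
  have h1 := t.root hz.coe
  rw [← coe_aeval] at h1
  apply PadicInt.ext
  rw [h1]
  rfl

theorem no_tor {f g : ℤ[X]} {c : ℤ} (hg : g.Monic) (hd : 0 < g.natDegree) (hc : 3 ≤ |c|)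
    (hf : g * (g + C c) ∣ f) : TorsionPts f = ∅ := by
  rw [Set.eq_empty_iff_forall_notMem]
  intro w hw
  have hm : (g + C c).Monic := hg.add_of_left (by
    refine (degree_C_le).trans_lt ?_
    rw [← natDegree_pos_iff_degree_pos]
    exact hd)
  obtain ⟨n, hn, h1⟩ := hw g hg ((dvd_mul_right _ _).trans hf)
  obtain ⟨m, hm', h2⟩ := hw (g + C c) hm ((dvd_mul_left _ _).trans hf)
  have n1 := norm_one hn h1
  have n2 := norm_one hm' h2
  rw [map_add, aeval_C] at n2
  have h3 : ‖(c : ℂ)‖ ≤ 2 := by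
    have e : (c : ℂ) = (aeval w g + algebraMap ℤ ℂ c) - aeval w g := by simp
    rw [e]
    refine (norm_sub_le _ _).trans ?_
    rw [n1, n2]
    norm_num
  rw [Complex.norm_intCast] at h3
  have h4 : (3 : ℝ) ≤ |(c : ℝ)| := by exact_mod_cast hc
  linarith

end proof

open Pool.Agent.N874.WG Pool.Agent.H76K in
open scoped Classical in
theorem result :
    (∀ f : ℤ[X], f.Monic → 0 < f.natDegree →
      -- points of level one and torsion points
      (∀ (p : ℕ) [Fact p.Prime], ∀ z ∈ Level1 p f, ∃ w ∈ TorsionPts f,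
        ∀ Q : ℤ[X], aeval z Q = 0 ↔ aeval w Q = 0) ∧
      -- the criterion for all primes
      ((∀ w ∈ TorsionPts f, ∃ m : ℤ, w = m) → ∀ (p : ℕ) [Fact p.Prime], Settled p f) ∧
      -- at least two components
      (∀ g h : ℤ[X], Two f g h →
        ((TorsionPts f).Finite ∧ (TorsionPts f).ncard ≤ 2 * (g.natDegree * h.natDegree)) ∧
        (∀ (p : ℕ) [Fact p.Prime],
          (Level1 p f).Finite ∧ (Level1 p f).ncard ≤ 2 * (g.natDegree * h.natDegree)) ∧
        ((∀ x : ℝ, (∀ q : ℤ[X], q.Monic → q ∣ f → aeval x q = 1 ∨ aeval x q = -1) →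
          ∃ m : ℤ, x = m) → ∀ B : ℕ, ∃ (p : ℕ) (_ : Fact p.Prime), B < p ∧ Settled p f) ∧
        (∀ (p : ℕ) [Fact p.Prime], Good (g.natDegree * h.natDegree) p →
          (∀ z ∈ Level1 p f, ∀ q : ℤ[X], q.Monic → q ∣ f → aeval z q = 1 ∨ aeval z q = -1) ∧
          ((∀ w : ℂ, (∀ q : ℤ[X], q.Monic → q ∣ f → aeval w q = 1 ∨ aeval w q = -1) →
            ∃ m : ℤ, w = m) → Settled p f))) ∧
      -- far away components
      (∀ (g : ℤ[X]) (c : ℤ), g.Monic → 0 < g.natDegree → 3 ≤ |c| → g * (g + C c) ∣ f →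
        ∀ (p : ℕ) [Fact p.Prime], Level1 p f = ∅ ∧ IntPts f = ∅)) ∧
    (∀ d N : ℕ, ∃ p, N < p ∧ p.Prime ∧ Good d p) ∧
    -- 100 per cent of the pairs
    (∀ a b : ℕ, 0 < a → 0 < b → ∃ K : ℕ, ∀ H : ℕ,
      ((box a H ×ˢ box b H).filter fun c => ¬ ∀ f : ℤ[X], f.Monic →
        monicPoly c.1 * monicPoly c.2 ∣ f →
          ∀ (p : ℕ) [Fact p.Prime], Level1 p f = ∅ ∧ IntPts f = ∅).card ≤
        K * (2 * H + 1) ^ (a + b - 1) ∧ (box a H ×ˢ box b H).card = (2 * H + 1) ^ (a + b)) := by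
  have empty : ∀ f : ℤ[X], f.Monic → 0 < f.natDegree → TorsionPts f = ∅ →
      ∀ (p : ℕ) [Fact p.Prime], Level1 p f = ∅ ∧ IntPts f = ∅ := by
    intro f hf hd h0 p _
    have h1 : Level1 p f = ∅ := by
      rw [Set.eq_empty_iff_forall_notMem]
      intro z hz
      obtain ⟨w, hw, -⟩ := exists_complex hf hd (level_tor hz)
      have hw' : w ∈ TorsionPts f := hw
      rw [h0] at hw'
      exact hw'
    refine ⟨h1, ?_⟩
    rw [Set.eq_empty_iff_forall_notMem]
    intro x hx
    have h2 := mem_level (p := p) f x hx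
    rw [h1] at h2
    exact h2
  refine ⟨?_, good_inf, ?_⟩
  · intro f hf hd
    refine ⟨?_, ?_, ?_, ?_⟩
    · intro p _ z hz
      obtain ⟨w, hw, hcj⟩ := exists_complex hf hd (level_tor hz)
      exact ⟨w, hw, hcj⟩
    · intro h p _
      refine settled_of hf fun z hz => ?_
      obtain ⟨w, hw, hcj⟩ := exists_complex hf hd (level_tor hz)
      obtain ⟨m, hm⟩ := h w hw
      exact ⟨m, cj_int hcj hm⟩
    · intro g h t
      have hR := t.ne
      have hRd := Rs_natDegree g h
      refine ⟨?_, ?_, ?_, ?_⟩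
      · have hRm : (Rs g h).map (algebraMap ℤ ℂ) ≠ 0 :=
          (Polynomial.map_ne_zero_iff (algebraMap ℤ ℂ).injective_int).2 hR
        have hsub : TorsionPts f ⊆ (((Rs g h).map (algebraMap ℤ ℂ)).roots.toFinset : Set ℂ) := by
          intro w hw
          rw [Finset.mem_coe, Multiset.mem_toFinset, mem_roots hRm, IsRoot.def,
            eval_map_algebraMap]
          exact t.root hw
        refine ⟨(Finset.finite_toSet _).subset hsub, ?_⟩
        refine (Set.ncard_le_ncard hsub (Finset.finite_toSet _)).trans ?_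
        rw [Set.ncard_coe_finset]
        exact (Multiset.toFinset_card_le _).trans ((card_roots' _).trans
          (natDegree_map_le.trans hRd))
      · intro p _
        have hRm : (Rs g h).map (algebraMap ℤ ℤ_[p]) ≠ 0 :=
          (Polynomial.map_ne_zero_iff (algebraMap ℤ ℤ_[p]).injective_int).2 hR
        have hsub : Level1 p f ⊆
            (((Rs g h).map (algebraMap ℤ ℤ_[p])).roots.toFinset : Set ℤ_[p]) := by
          intro z hz
          rw [Finset.mem_coe, Multiset.mem_toFinset, mem_roots hRm, IsRoot.def,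
            eval_map_algebraMap]
          exact t.root' (level_tor hz)
        refine ⟨(Finset.finite_toSet _).subset hsub, ?_⟩
        refine (Set.ncard_le_ncard hsub (Finset.finite_toSet _)).trans ?_
        rw [Set.ncard_coe_finset]
        exact (Multiset.toFinset_card_le _).trans ((card_roots' _).trans
          (natDegree_map_le.trans hRd))
      · intro hreal B
        obtain ⟨p, ip, hpB, hp⟩ := exists_prime hf hd hR hreal B
        exact ⟨p, ip, hpB, settled_of hf fun z hz =>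
          hp z (level_tor hz) (t.root' (level_tor hz))⟩
      · intro p _ hgood
        have hpm : ∀ z ∈ Level1 p f, ∀ q : ℤ[X], q.Monic → q ∣ f →
            aeval z q = 1 ∨ aeval z q = -1 := fun z hz q hq hqf =>
          pm (level_tor hz) hR (t.root' (level_tor hz)) hRd hgood.1 hgood.2 hq hqf
        refine ⟨hpm, fun hint => settled_of hf fun z hz => ?_⟩
        obtain ⟨w, hw, hcj⟩ := exists_complex hf hd (level_tor hz)
        obtain ⟨m, hm⟩ := hint w fun q hq hqf => by
          rcases hpm z hz q hq hqf with h1 | h1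
          · left
            have h2 := (hcj (q - 1)).1 (by rw [map_sub, h1, map_one, sub_self])
            rw [map_sub, map_one, sub_eq_zero] at h2
            exact h2
          · right
            have h2 := (hcj (q + 1)).1 (by rw [map_add, h1, map_one, neg_add_cancel])
            rw [map_add, map_one] at h2
            exact eq_neg_of_add_eq_zero_left h2
        exact ⟨m, cj_int hcj hm⟩
    · intro g c hg hgd hc hgf p _
      exact empty f hf hd (no_tor hg hgd hc hgf) p
  · intro a b ha hb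
    refine ⟨1 + a * ((4 * a * b).factorial) ^ 2, fun H => ⟨?_, ?_⟩⟩
    · refine le_trans (Finset.card_le_card ?_) (card_pairs a b ha hb H)
      rintro ⟨c, d⟩ hcd
      obtain ⟨h1, h2⟩ := Finset.mem_filter.1 hcd
      refine Finset.mem_filter.2 ⟨h1, ?_⟩
      by_contra hno
      apply h2
      intro f hf hdvd
      have hne : f ≠ 0 := hf.ne_zero
      have hd : 0 < f.natDegree := by
        have h3 := natDegree_le_of_dvd ((dvd_mul_right _ _).trans hdvd : mo c ∣ f) hne
        rw [mo_natDegree] at h3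
        omega
      refine empty f hf hd ?_
      rw [Set.eq_empty_iff_forall_notMem]
      intro w hw
      exact hno ⟨w, fun q hq hqf => hw q hq (hqf.trans hdvd)⟩
    · rw [Finset.card_product]
      have e1 : (box a H).card = (2 * H + 1) ^ a := card_bx a H
      have e2 : (box b H).card = (2 * H + 1) ^ b := card_bx b H
      rw [e1, e2, pow_add]

end Pool.Agent.Results.MP_fd87b4_nt.TwoComponents
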